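import Pool.Agent.Helper90.MZ.StmtsA

/-!
# MP_79eb7e_lc, full answer: module DIM (dimension)
-/

set_option autoImplicit false

namespace Pool.Agent.Helper90.MZ

open Pool.Agent.Helper90.TS

variable {V G : Type} [Group G] [MulAction G V] {X : Ctx V G}

theorem dim_cnt {κ : Type} [Countable κ] (y : κ → Fin 1 → V) :
    (⋃ i, Set.range (y i)).Countable := Set.countable_iUnion fun _ => Set.countable_range _

theorem dim_cnt2 {κ : Type} [Countable κ] (J : Set κ) (y : κ → Fin 1 → V) :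
    (⋃ i ∈ J, Set.range (y i)).Countable :=
  Set.Countable.biUnion (Set.to_countable J) fun _ _ => Set.countable_range _

theorem dim_mono (hRLB : ST_RLB) {p : Ty V} (hp : SR X p) {B B' : Set V} {y : Fin 1 → V}
    (hB : B.Countable) (h : Rl X p B y) (hB' : B' ⊆ p.A ∪ B) : Rl X p B' y :=
  (hRLB V G X p hp B hB).2.2.1 y h B' hB'

theorem dim_up (hRLB : ST_RLB) {p : Ty V} (hp : SR X p) {B C : Set V} {y : Fin 1 → V}
    (hB : B.Countable) (hC : C.Countable) (h : Rl X p B y)
    (h2 : SI X (p.A ∪ B) (Set.range y) C) : Rl X p (B ∪ C) y :=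
  (hRLB V G X p hp B hB).2.2.2.1 y C hC h h2

theorem dim_dn (hRLB : ST_RLB) {p : Ty V} (hp : SR X p) {B C : Set V} {y : Fin 1 → V}
    (hB : B.Countable) (hC : C.Countable) (h : Rl X p (B ∪ C) y) :
    SI X (p.A ∪ B) (Set.range y) C :=
  (hRLB V G X p hp B hB).2.2.2.2.1 y C hC h

/-- Morley sequences -/
def dimMor (X : Ctx V G) (p : Ty V) (B : Set V) {m : ℕ} (z : Fin m → Fin 1 → V) : Prop :=
  ∀ i, Rl X p (B ∪ ⋃ j ∈ {j | j < i}, Set.range (z j)) (z i)

theorem dim_mor_of (hRLB : ST_RLB) {p : Ty V} (hp : SR X p) {B : Set V}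
    (hB : B.Countable) {m : ℕ} {z : Fin m → Fin 1 → V} (h1 : ∀ i, Rl X p B (z i))
    (h2 : Ind X (p.A ∪ B) (fun i => Set.range (z i))) : dimMor X p B z := by
  intro i
  refine dim_up hRLB hp hB (dim_cnt2 _ _) (h1 i) ?_
  have h3 := h2 {i} {j | j < i} (by
    rw [Set.disjoint_singleton_left]
    exact fun h => lt_irrefl i h)
  rwa [Set.biUnion_singleton] at h3

theorem dim_mor_rl (hRLB : ST_RLB) {p : Ty V} (hp : SR X p) {B : Set V}
    (hB : B.Countable) {m : ℕ} {z : Fin m → Fin 1 → V} (h : dimMor X p B z) (i : Fin m) :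
    Rl X p B (z i) :=
  dim_mono hRLB hp (hB.union (dim_cnt2 _ _)) (h i)
    (Set.subset_union_left.trans Set.subset_union_right)

theorem dim_mor_ind (hRLB : ST_RLB) (hIND : ST_IND) {p : Ty V} (hp : SR X p) {B : Set V}
    (hB : B.Countable) {m : ℕ} {z : Fin m → Fin 1 → V} (h : dimMor X p B z) :
    Ind X (p.A ∪ B) (fun i => Set.range (z i)) := by
  refine (hIND V G X (p.A ∪ B) (hp.cnt.union hB)).2.1 m _ (fun i => Set.countable_range _) ?_
  intro i
  exact dim_dn hRLB hp hB (dim_cnt2 _ _) (h i)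

/-- extension of a Morley sequence by one element -/
theorem dim_snoc {p : Ty V} {B : Set V} (hRLB : ST_RLB) (hp : SR X p) (hB : B.Countable) {m : ℕ}
    {z : Fin m → Fin 1 → V} {x : Fin 1 → V}
    (h : dimMor X p B z) (hx : Rl X p (B ∪ ⋃ i, Set.range (z i)) x) :
    dimMor X p B (Fin.snoc (α := fun _ => Fin 1 → V) z x) := by
  intro i
  refine Fin.lastCases ?_ ?_ i
  · rw [Fin.snoc_last]
    refine dim_mono hRLB hp (hB.union (dim_cnt _)) hx ?_
    refine Set.Subset.trans (Set.union_subset_union_right B ?_) Set.subset_union_right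
    intro v hv
    simp only [Set.mem_iUnion] at hv
    obtain ⟨j, hj, hv⟩ := hv
    have hj' : j < Fin.last m := hj
    obtain ⟨j', rfl⟩ : ∃ j' : Fin m, j = Fin.castSucc j' :=
      ⟨⟨j.val, hj'⟩, rfl⟩
    rw [Fin.snoc_castSucc] at hv
    exact Set.mem_iUnion.2 ⟨j', hv⟩
  · intro i'
    rw [Fin.snoc_castSucc]
    refine dim_mono hRLB hp (hB.union (dim_cnt2 _ _)) (h i') ?_
    refine Set.Subset.trans (Set.union_subset_union_right B ?_) Set.subset_union_right
    intro v hv
    simp only [Set.mem_iUnion] at hv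
    obtain ⟨j, hj, hv⟩ := hv
    have hj' : j < Fin.castSucc i' := hj
    obtain ⟨j', rfl⟩ : ∃ j' : Fin m, j = Fin.castSucc j' :=
      ⟨⟨j.val, lt_trans (Fin.lt_def.1 hj') i'.isLt⟩, rfl⟩
    rw [Fin.snoc_castSucc] at hv
    exact Set.mem_iUnion₂.2 ⟨j', hj', hv⟩

/-- the weight of a Morley sequence -/
theorem dim_wb (hWBB : ST_WBB) (hRLB : ST_RLB) {p : Ty V} (hp : SR X p) {B : Set V}
    (hB : B.Countable) {k : ℕ} {z : Fin k → Fin 1 → V} (hz : dimMor X p B z) :
    ∀ m ≤ k, WB X (p.A ∪ B) (⋃ i ∈ {i : Fin k | i.val < m}, Set.range (z i)) m := by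
  intro m
  induction m with
  | zero =>
    intro _ Y hY _ m S hS _
    refine ⟨∅, le_rfl, ?_⟩
    have e : (⋃ i ∈ {i : Fin k | i.val < 0}, Set.range (z i)) = ∅ := by
      ext v
      simp
    rw [e]
    exact si_empty_right
  | succ m ih =>
    intro hm
    have h1 := ih (by omega)
    have hmk : m < k := hm
    have hu : (⋃ i ∈ {i : Fin k | i.val < m}, Set.range (z i)).Countable := dim_cnt2 _ _
    have h2 : Rl X p (B ∪ ⋃ i ∈ {i : Fin k | i.val < m}, Set.range (z i)) (z ⟨m, hmk⟩) :=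
      hz ⟨m, hmk⟩
    have h3 := (hWBB V G X).2.2.2.1 p _ (z ⟨m, hmk⟩) hp (hB.union hu) h2
    rw [← Set.union_assoc] at h3
    have h4 := (hWBB V G X).2.2.1 (p.A ∪ B) _ _ m 1 (hp.cnt.union hB) hu
      (Set.countable_range _) h1 h3
    refine (hWBB V G X).2.2.2.2 _ _ _ _ (hp.cnt.union hB) (hu.union (Set.countable_range _)) ?_ h4
    intro v hv
    simp only [Set.mem_iUnion] at hv
    obtain ⟨j, hj, hv⟩ := hv
    have hj' : j.val < m + 1 := hj
    rcases Nat.lt_succ_iff_lt_or_eq.1 hj' with h5 | h5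
    · exact Or.inl (Set.mem_iUnion₂.2 ⟨j, h5, hv⟩)
    · right
      have : j = ⟨m, hmk⟩ := Fin.ext h5
      rwa [← this]

theorem dim_one (hWBB : ST_WBB) (hRLB : ST_RLB) {p : Ty V} (hp : SR X p) {B N : Set V}
    {k k' : ℕ} {y : Fin k' → Fin 1 → V} (hN : Mdl X N) (hBN : B ⊆ N)
    (hD : Dmn X p B N k) (hy : ∀ i, Set.range (y i) ⊆ N ∧ Rl X p B (y i))
    (hI : Ind X (p.A ∪ B) (fun i => Set.range (y i))) : k' ≤ k := by
  by_contra hlt
  push Not at hlt
  obtain ⟨z, hz, hIz, hOm⟩ := hD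
  have hB : B.Countable := hN.1.mono hBN
  have hm := dim_mor_of hRLB hp hB (fun i => (hz i).2) hIz
  have h1 := dim_wb hWBB hRLB hp hB hm k le_rfl
  obtain ⟨J, hJ, hS⟩ := h1 ∅ Set.countable_empty si_empty_right k' (fun i => Set.range (y i))
    (fun i => Set.countable_range _) (by rwa [Set.union_empty])
  obtain ⟨j, hj⟩ : ∃ j, j ∉ J := by
    by_contra hcon
    push Not at hcon
    have : J = Finset.univ := Finset.eq_univ_iff_forall.2 hcon
    rw [this, Finset.card_univ, Fintype.card_fin] at hJ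
    omega
  rw [Set.union_empty] at hS
  have h2 : SI X (p.A ∪ B) (Set.range (y j))
      (⋃ i ∈ {i : Fin k | i.val < k}, Set.range (z i)) := by
    refine si_left ?_ hS
    intro v hv
    exact Set.mem_iUnion₂.2 ⟨j, hj, hv⟩
  have h3 := dim_up hRLB hp hB (dim_cnt2 _ _) (hy j).2 h2
  refine hOm (y j) (hy j).1 ?_
  refine dim_mono hRLB hp (hB.union (dim_cnt2 _ _)) h3 ?_
  refine Set.Subset.trans (Set.union_subset_union_right B ?_) Set.subset_union_right
  intro v hv
  obtain ⟨i, hv⟩ := Set.mem_iUnion.1 hv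
  exact Set.mem_iUnion₂.2 ⟨i, i.isLt, hv⟩

theorem dim_six (hRLB : ST_RLB) (hIND : ST_IND) {p : Ty V} (hp : SR X p) {B N : Set V}
    {k : ℕ} (hN : Mdl X N) (hBN : B ⊆ N)
    (h : ∀ (y : Fin (k + 1) → Fin 1 → V), (∀ i, Set.range (y i) ⊆ N ∧ Rl X p B (y i)) →
      ¬ Ind X (p.A ∪ B) (fun i => Set.range (y i))) : ∃ j ≤ k, Dmn X p B N j := by
  classical
  have hB : B.Countable := hN.1.mono hBN
  have hP : ∃ n, ¬ ∃ y : Fin n → Fin 1 → V, (∀ i, Set.range (y i) ⊆ N ∧ Rl X p B (y i)) ∧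
      Ind X (p.A ∪ B) (fun i => Set.range (y i)) :=
    ⟨k + 1, fun ⟨y, h1, h2⟩ => h y h1 h2⟩
  have hf := Nat.find_spec hP
  have hle : Nat.find hP ≤ k + 1 := Nat.find_min' hP fun ⟨y, h1, h2⟩ => h y h1 h2
  have h0 : Nat.find hP ≠ 0 := by
    intro h0
    rw [h0] at hf
    apply hf
    refine ⟨fun i => Fin.elim0 i, fun i => Fin.elim0 i, ?_⟩
    intro I J _
    have e : (⋃ i ∈ I, Set.range ((fun i : Fin 0 => (Fin.elim0 i : Fin 1 → V)) i)) = ∅ := by
      ext v
      simp only [Set.mem_iUnion, Set.mem_empty_iff_false, iff_false]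
      rintro ⟨i, _⟩
      exact Fin.elim0 i
    rw [e]
    exact si_empty_left
  obtain ⟨j, hj⟩ := Nat.exists_eq_succ_of_ne_zero h0
  have hjm := Nat.find_min hP (m := j) (by omega)
  push Not at hjm
  obtain ⟨y, hy, hI⟩ := hjm
  refine ⟨j, by omega, y, hy, hI, ?_⟩
  intro x hx hxr
  have hm := dim_mor_of hRLB hp hB (fun i => (hy i).2) hI
  have hs := dim_snoc hRLB hp hB hm hxr
  rw [hj] at hf
  apply hf
  refine ⟨Fin.snoc (α := fun _ => Fin 1 → V) y x, ?_, dim_mor_ind hRLB hIND hp hB hs⟩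
  intro i
  refine ⟨?_, dim_mor_rl hRLB hp hB hs i⟩
  refine Fin.lastCases ?_ ?_ i
  · rwa [Fin.snoc_last]
  · intro i'
    rw [Fin.snoc_castSucc]
    exact (hy i').1

theorem dim_two (hWT : ST_WT) (hRLB : ST_RLB) (hIND : ST_IND) {p : Ty V} (hp : SR X p)
    {F N : Set V} (hF : F.Finite) (hN : Mdl X N) (hOm : Om X p F N) : ∃ k, Dmn X p ∅ N k := by
  obtain ⟨k, hk⟩ := hWT V G X p.A F hp.cnt hF
  obtain ⟨j, _, hj⟩ := dim_six (k := k) hRLB hIND hp hN (Set.empty_subset N) (by
    intro y hy hI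
    obtain ⟨J, hJ, hS⟩ := hk ∅ Set.countable_empty si_empty_right (k + 1)
      (fun i => Set.range (y i)) (fun i => Set.countable_range _) hI
    obtain ⟨j, hj⟩ : ∃ j, j ∉ J := by
      by_contra hcon
      push Not at hcon
      have : J = Finset.univ := Finset.eq_univ_iff_forall.2 hcon
      rw [this, Finset.card_univ, Fintype.card_fin] at hJ
      omega
    have h2 : SI X (p.A ∪ ∅) (Set.range (y j)) F := by
      refine si_left ?_ hS
      intro v hv
      exact Set.mem_iUnion₂.2 ⟨j, hj, hv⟩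
    have h3 := dim_up hRLB hp Set.countable_empty hF.countable (hy j).2 h2
    rw [Set.empty_union] at h3
    exact hOm (y j) (hy j).1 h3)
  exact ⟨j, hj⟩

theorem dim_three (hRLB : ST_RLB) (hIND : ST_IND) (hBAS : ST_BAS) {p : Ty V} (hp : SR X p)
    {B N N' : Set V} {n k : ℕ} (hN : Mdl X N) (hN' : Mdl X N') (hNN : N ⊆ N') (hpN : p.A ⊆ N)
    (hBN : B ⊆ N) (h1 : Dmn X p B N n) (h2 : Dmn X p N N' k) : Dmn X p B N' (n + k) := by
  obtain ⟨y, hy, hIy, hOy⟩ := h1
  obtain ⟨b, hb, hIb, hOb⟩ := h2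
  have hB : B.Countable := hN.1.mono hBN
  have hNc : N.Countable := hN.1
  have hyc := dim_cnt y
  have hbc := dim_cnt b
  have hmy := dim_mor_of hRLB hp hB (fun i => (hy i).2) hIy
  have hmb := dim_mor_of hRLB hp hNc (fun i => (hb i).2) hIb
  have hyN : (⋃ i, Set.range (y i)) ⊆ N := Set.iUnion_subset fun i => (hy i).1
  have hS : dimMor X p B (Fin.append y b) := by
    intro i
    refine Fin.addCases ?_ ?_ i
    · intro i'
      rw [Fin.append_left]
      refine dim_mono hRLB hp (hB.union (dim_cnt2 _ _)) (hmy i') ?_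
      refine Set.Subset.trans (Set.union_subset_union_right B ?_) Set.subset_union_right
      intro v hv
      simp only [Set.mem_iUnion] at hv
      obtain ⟨j, hj, hv⟩ := hv
      have hj' : j < Fin.castAdd k i' := hj
      obtain ⟨j', rfl⟩ : ∃ j' : Fin n, j = Fin.castAdd k j' :=
        ⟨⟨j.val, lt_trans (Fin.lt_def.1 hj') i'.isLt⟩, rfl⟩
      rw [Fin.append_left] at hv
      exact Set.mem_iUnion₂.2 ⟨j', hj', hv⟩
    · intro i'
      rw [Fin.append_right]
      refine dim_mono hRLB hp (hNc.union (dim_cnt2 _ _)) (hmb i') ?_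
      intro v hv
      rcases hv with hv | hv
      · exact Or.inr (Or.inl (hBN hv))
      · simp only [Set.mem_iUnion] at hv
        obtain ⟨j, hj, hv⟩ := hv
        revert hj hv
        refine Fin.addCases ?_ ?_ j
        · intro j' _ hv
          rw [Fin.append_left] at hv
          exact Or.inr (Or.inl ((hy j').1 hv))
        · intro j' hj hv
          rw [Fin.append_right] at hv
          have hj' : Fin.natAdd n j' < Fin.natAdd n i' := hj
          refine Or.inr (Or.inr (Set.mem_iUnion₂.2 ⟨j', ?_, hv⟩))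
          exact (Fin.natAdd_lt_natAdd_iff n).1 hj'
  refine ⟨Fin.append y b, ?_, dim_mor_ind hRLB hIND hp hB hS, ?_⟩
  · intro i
    refine ⟨?_, dim_mor_rl hRLB hp hB hS i⟩
    refine Fin.addCases ?_ ?_ i
    · intro i'
      rw [Fin.append_left]
      exact (hy i').1.trans hNN
    · intro i'
      rw [Fin.append_right]
      exact (hb i').1
  · intro x hx hxr
    have hByc : (B ∪ ⋃ i, Set.range (y i)).Countable := hB.union hyc
    have e : (⋃ i, Set.range (Fin.append y b i)) =
        (⋃ i, Set.range (y i)) ∪ ⋃ i, Set.range (b i) := by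
      ext v
      simp only [Set.mem_iUnion, Set.mem_union]
      constructor
      · rintro ⟨i, hv⟩
        revert hv
        refine Fin.addCases ?_ ?_ i
        · intro i' hv
          rw [Fin.append_left] at hv
          exact Or.inl ⟨i', hv⟩
        · intro i' hv
          rw [Fin.append_right] at hv
          exact Or.inr ⟨i', hv⟩
      · rintro (⟨i, hv⟩ | ⟨i, hv⟩)
        · exact ⟨Fin.castAdd k i, by rwa [Fin.append_left]⟩
        · exact ⟨Fin.natAdd n i, by rwa [Fin.append_right]⟩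
    rw [e, ← Set.union_assoc] at hxr
    have hmb2 : dimMor X p (B ∪ ⋃ i, Set.range (y i)) b := by
      intro i
      refine dim_mono hRLB hp (hNc.union (dim_cnt2 _ _)) (hmb i) ?_
      refine Set.Subset.trans ?_ Set.subset_union_right
      exact Set.union_subset_union_left _ (Set.union_subset hBN hyN)
    have hs := dim_snoc hRLB hp hByc hmb2 hxr
    have hI := dim_mor_ind hRLB hIND hp hByc hs
    have hSI := hBAS V G X p (B ∪ ⋃ i, Set.range (y i)) N (Fin (k + 1))
      (Fin.snoc (α := fun _ => Fin 1 → V) b x) hp hN hpN (Set.union_subset hBN hyN) hOy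
      (fun i => dim_mor_rl hRLB hp hByc hs i) hI
    have hA1 : (p.A ∪ (B ∪ ⋃ i, Set.range (y i))).Countable := hp.cnt.union hByc
    have hSI2 : SI X (p.A ∪ (B ∪ ⋃ i, Set.range (y i)))
        ((⋃ i, Set.range (b i)) ∪ Set.range x) N := by
      refine si_left ?_ hSI
      intro v hv
      rcases hv with hv | hv
      · obtain ⟨i, hv⟩ := Set.mem_iUnion.1 hv
        refine Set.mem_iUnion.2 ⟨Fin.castSucc i, ?_⟩
        rwa [Fin.snoc_castSucc]
      · refine Set.mem_iUnion.2 ⟨Fin.last k, ?_⟩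
        rwa [Fin.snoc_last]
    have hSI3 := ((si_unionl hA1 hbc hNc (Set.countable_range x)).1 hSI2).2
    rw [Set.union_assoc] at hSI3
    have h5 := dim_up hRLB hp (hByc.union hbc) hNc hxr hSI3
    refine hOb x hx ?_
    refine dim_mono hRLB hp ((hByc.union hbc).union hNc) h5 ?_
    intro v hv
    rcases hv with hv | hv
    · exact Or.inr (Or.inr hv)
    · exact Or.inr (Or.inl (Or.inr hv))

theorem dim_four_aux (hRLB : ST_RLB) (hIND : ST_IND) (hPRIM : ST_PRIM) (hDOM : ST_DOM)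
    (hNWO : ST_NWO) {p q : Ty V} (hp : SR X p) (hq : SR X q) (hpq : NO X q p) {N' : Set V}
    (hN' : Mdl X N') (m : ℕ) : ∀ (N : Set V), Mdl X N → N ⊆ N' → p.A ⊆ N → q.A ⊆ N →
    ∀ b : Fin m → Fin 1 → V, (∀ i, Set.range (b i) ⊆ N' ∧ Rl X p N (b i)) →
      Ind X (p.A ∪ N) (fun i => Set.range (b i)) →
    ∃ b' : Fin m → Fin 1 → V, (∀ i, Set.range (b' i) ⊆ N') ∧ dimMor X q N b' := by
  induction m with
  | zero =>
    intro N _ _ _ _ b _ _
    exact ⟨b, fun i => Fin.elim0 i, fun i => Fin.elim0 i⟩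
  | succ m ih =>
    intro N hN hNN hpN hqN b hb hI
    have hNc := hN.1
    obtain ⟨N1, hN1, hA1⟩ := hPRIM V G X (N ∪ Set.range (b 0)) N' hN'
      (Set.union_subset hNN (hb 0).1)
    have hN1m : Mdl X N1 := hA1.1
    have hNN1 : N ⊆ N1 := Set.subset_union_left.trans hA1.2.1
    have hb0 : Set.range (b 0) ⊆ N1 := Set.subset_union_right.trans hA1.2.1
    have hN1c := hN1m.1
    rw [Set.union_eq_self_of_subset_left hpN] at hI
    have hT : SI X N (⋃ i : Fin m, Set.range (b i.succ)) (Set.range (b 0)) := by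
      have h3 := hI {i | i ≠ 0} {0} (by
        rw [Set.disjoint_singleton_right]
        exact fun h => h rfl)
      rw [Set.biUnion_singleton] at h3
      refine si_left ?_ h3
      intro v hv
      obtain ⟨i, hv⟩ := Set.mem_iUnion.1 hv
      exact Set.mem_iUnion₂.2 ⟨i.succ, Fin.succ_ne_zero i, hv⟩
    have hT1 : SI X N (⋃ i : Fin m, Set.range (b i.succ)) N1 :=
      (hDOM V G X N (Set.range (b 0)) (⋃ i : Fin m, Set.range (b i.succ)) N1 hN
        (Set.countable_range _) (dim_cnt _) hA1 hT).1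
    have hIt : Ind X N (fun i : Fin m => Set.range (b i.succ)) :=
      (hIND V G X N hNc).2.2.1 (Fin (m + 1)) (Fin m) (fun i => Set.range (b i)) Fin.succ
        (Fin.succ_injective m) hI
    have hIt1 : Ind X (N ∪ N1) (fun i : Fin m => Set.range (b i.succ)) :=
      (hIND V G X N hNc).2.2.2.1 (Fin m) (fun i => Set.range (b i.succ)) N1
        (fun i => Set.countable_range _) hN1c hIt hT1
    rw [Set.union_eq_self_of_subset_left hNN1] at hIt1
    have hr : ∀ i : Fin m, Rl X p N1 (b i.succ) := by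
      intro i
      have h4 : SI X (p.A ∪ N) (Set.range (b i.succ)) N1 := by
        rw [Set.union_eq_self_of_subset_left hpN]
        exact si_left (Set.subset_iUnion (fun i : Fin m => Set.range (b i.succ)) i) hT1
      exact dim_mono hRLB hp (hNc.union hN1c) (dim_up hRLB hp hNc hN1c (hb i.succ).2 h4)
        (Set.subset_union_right.trans Set.subset_union_right)
    obtain ⟨b', hb', hm'⟩ := ih N1 hN1m hN1 (hpN.trans hNN1) (hqN.trans hNN1)
      (fun i => b i.succ) (fun i => ⟨(hb i.succ).1, hr i⟩)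
      (by rwa [Set.union_eq_self_of_subset_left (hpN.trans hNN1)])
    obtain ⟨y, hyN, hyr⟩ := hNWO V G X q p N N1 (b 0) hq hp hpq hN hqN hpN (hb 0).2 hN1m hNN1 hb0
    refine ⟨Fin.cons (α := fun _ => Fin 1 → V) y b', ?_, ?_⟩
    · intro i
      refine Fin.cases ?_ ?_ i
      · rw [Fin.cons_zero]
        exact hyN.trans hN1
      · intro i'
        rw [Fin.cons_succ]
        exact hb' i'
    · intro i
      refine Fin.cases ?_ ?_ i
      · rw [Fin.cons_zero]
        refine dim_mono hRLB hq hNc hyr ?_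
        intro v hv
        rcases hv with hv | hv
        · exact Or.inr hv
        · simp only [Set.mem_iUnion] at hv
          obtain ⟨j, hj, _⟩ := hv
          exact absurd (show j < 0 from hj) (Fin.not_lt_zero j)
      · intro i'
        rw [Fin.cons_succ]
        refine dim_mono hRLB hq (hN1c.union (dim_cnt2 _ _)) (hm' i') ?_
        intro v hv
        rcases hv with hv | hv
        · exact Or.inr (Or.inl (hNN1 hv))
        · simp only [Set.mem_iUnion] at hv
          obtain ⟨j, hj, hv⟩ := hv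
          revert hj hv
          refine Fin.cases ?_ ?_ j
          · intro _ hv
            rw [Fin.cons_zero] at hv
            exact Or.inr (Or.inl (hyN hv))
          · intro j' hj hv
            rw [Fin.cons_succ] at hv
            have hj' : j'.succ < i'.succ := hj
            exact Or.inr (Or.inr (Set.mem_iUnion₂.2 ⟨j', Fin.succ_lt_succ_iff.1 hj', hv⟩))

theorem st_DIM (hWBB : ST_WBB) (hWT : ST_WT) (hBAS : ST_BAS) (hNWO : ST_NWO)
    (hPRIM : ST_PRIM) (hRLB : ST_RLB) (hIND : ST_IND) (hNOEQ : ST_NOEQ) (hDOM : ST_DOM) :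
    ST_DIM := by
  intro V G _ _ X p hp
  refine ⟨?_, ?_, ?_, ?_, ?_, ?_⟩
  · intro B N k k' y hN _ hBN hD hy hI
    exact dim_one hWBB hRLB hp hN hBN hD hy hI
  · intro F N _ hF hN _ _ hOm
    exact dim_two hWT hRLB hIND hp hF hN hOm
  · intro B N N' n k hN hN' hNN hpN hBN h1 h2
    exact dim_three hRLB hIND hBAS hp hN hN' hNN hpN hBN h1 h2
  · intro N N' k q hq hN hN' hNN hpN hqN hpq hD
    have hqp : NO X q p := (hNOEQ V G X).2.1 p q hpq
    have hNc := hN.1
    obtain ⟨j, hj, hDj⟩ := dim_six (X := X) (k := k) hRLB hIND hq hN' hNN (by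
      intro y hy hI
      obtain ⟨b', hb', hm'⟩ := dim_four_aux hRLB hIND hPRIM hDOM hNWO hq hp hpq hN' (k + 1) N hN
        hNN hqN hpN y hy hI
      have := dim_one (k' := k + 1) hWBB hRLB hp hN' hNN hD
        (fun i => ⟨hb' i, dim_mor_rl hRLB hp hNc hm' i⟩) (dim_mor_ind hRLB hIND hp hNc hm')
      omega)
    obtain ⟨b, hb, hIb, _⟩ := hD
    obtain ⟨b', hb', hm'⟩ := dim_four_aux hRLB hIND hPRIM hDOM hNWO hp hq hqp hN' k N hN
      hNN hpN hqN b hb hIb
    have h5 := dim_one (k' := k) hWBB hRLB hq hN' hNN hDj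
        (fun i => ⟨hb' i, dim_mor_rl hRLB hq hNc hm' i⟩) (dim_mor_ind hRLB hIND hq hNc hm')
    have : j = k := by omega
    rwa [this] at hDj
  · intro B N k hB hBN hD
    obtain ⟨y, hy, _, hOm⟩ := hD
    refine ⟨B ∪ ⋃ i, Set.range (y i), ?_, ?_, hOm⟩
    · exact hB.union (Set.finite_iUnion fun i => Set.finite_range _)
    · exact Set.union_subset hBN (Set.iUnion_subset fun i => (hy i).1)
  · intro B N k hN _ hBN h
    exact dim_six hRLB hIND hp hN hBN h

end Pool.Agent.Helper90.MZ
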